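import Pool.Agent.H69.MQ.Stm

/-! Crew MQ, parts UPP and DBL. -/

set_option autoImplicit false

namespace Pool.Agent.H4.MQ

open Finset Pool.Agent.H69.MQ

theorem upp (hB : S_BTW) : S_UPP := by
  classical
  intro a b S hS
  set f : (Fin (a + b) → Bool) → (Fin a → Bool) := fun x i => x (Fin.castAdd b i) with hf
  set g : (Fin (a + b) → Bool) → (Fin b → Bool) := fun x i => x (Fin.natAdd a i) with hg
  set F := S.filter fun y => ∀ x ∈ S, x ≠ y → f x ≠ f y with hF
  set G := S.filter fun y => ∀ x ∈ S, x ≠ y → g x ≠ g y with hG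
  have h1 : F.card ≤ 2 ^ a := by
    calc F.card ≤ (Finset.univ : Finset (Fin a → Bool)).card := by
          refine Finset.card_le_card_of_injOn f (fun _ _ => Finset.mem_coe.2 (Finset.mem_univ _)) ?_
          intro x hx y hy h
          by_contra hne
          have hy' := (Finset.mem_filter.1 (Finset.mem_coe.1 hy)).2
          have hx' := (Finset.mem_filter.1 (Finset.mem_coe.1 hx)).1
          exact hy' x hx' hne h
      _ = 2 ^ a := by simp
  have h2 : G.card ≤ 2 ^ b := by
    calc G.card ≤ (Finset.univ : Finset (Fin b → Bool)).card := by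
          refine Finset.card_le_card_of_injOn g (fun _ _ => Finset.mem_coe.2 (Finset.mem_univ _)) ?_
          intro x hx y hy h
          by_contra hne
          have hy' := (Finset.mem_filter.1 (Finset.mem_coe.1 hy)).2
          have hx' := (Finset.mem_filter.1 (Finset.mem_coe.1 hx)).1
          exact hy' x hx' hne h
      _ = 2 ^ b := by simp
  have hsub : S ⊆ F ∪ G := by
    intro y hy
    by_contra hcon
    rw [Finset.mem_union, not_or] at hcon
    have h3 : ∃ x ∈ S, x ≠ y ∧ f x = f y := by
      by_contra h4
      push Not at h4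
      exact hcon.1 (Finset.mem_filter.2 ⟨hy, h4⟩)
    have h5 : ∃ z ∈ S, z ≠ y ∧ g z = g y := by
      by_contra h4
      push Not at h4
      exact hcon.2 (Finset.mem_filter.2 ⟨hy, h4⟩)
    obtain ⟨x, hx, hxy, hfx⟩ := h3
    obtain ⟨z, hz, hzy, hgz⟩ := h5
    have hxz : x ≠ z := by
      rintro rfl
      apply hxy
      funext i
      refine Fin.addCases (fun i => ?_) (fun i => ?_) i
      · exact congrFun hfx i
      · exact congrFun hgz i
    obtain ⟨i, hi1, hi2⟩ := (hB _ x y z).1 (hS x hx y hy z hz hxy hzy.symm hxz)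
    revert hi1 hi2
    refine Fin.addCases (fun i => ?_) (fun i => ?_) i
    · intro _ h
      exact h (congrFun hfx i).symm
    · intro h h'
      exact h' (by rw [h]; exact (congrFun hgz i).symm)
  calc S.card ≤ (F ∪ G).card := Finset.card_le_card hsub
    _ ≤ F.card + G.card := Finset.card_union_le _ _
    _ ≤ 2 ^ a + 2 ^ b := add_le_add h1 h2

theorem two_le {n : ℕ} (P : Fin (n + n) → Prop) [DecidablePred P] (i : Fin n)
    (h1 : P (Fin.castAdd n i)) (h2 : P (Fin.natAdd n i)) :
    2 ≤ (univ.filter P).card := by
  have hne : Fin.castAdd n i ≠ Fin.natAdd n i := by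
    intro h
    have := congrArg Fin.val h
    simp only [Fin.val_castAdd, Fin.val_natAdd] at this
    omega
  calc 2 = ({Fin.castAdd n i, Fin.natAdd n i} : Finset (Fin (n + n))).card :=
        (Finset.card_pair hne).symm
    _ ≤ _ := by
        refine Finset.card_le_card ?_
        intro w hw
        rw [Finset.mem_insert, Finset.mem_singleton] at hw
        rcases hw with rfl | rfl
        · exact Finset.mem_filter.2 ⟨Finset.mem_univ _, h1⟩
        · exact Finset.mem_filter.2 ⟨Finset.mem_univ _, h2⟩

theorem dbl (hB : S_BTW) : S_DBL := by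
  classical
  intro n S hS
  have hinj : Function.Injective (fun x : Fin n → Bool => Fin.append x x) := by
    intro x y h
    funext i
    have := congrFun h (Fin.castAdd n i)
    simpa using this
  refine ⟨S.image fun x => Fin.append x x, Finset.card_image_of_injective S hinj, ?_, ?_⟩
  · intro X hX Y hY hxy
    obtain ⟨x, hx, rfl⟩ := Finset.mem_image.1 hX
    obtain ⟨y, hy, rfl⟩ := Finset.mem_image.1 hY
    have hne : x ≠ y := fun h => hxy (by rw [h])
    obtain ⟨i, hi⟩ := Function.ne_iff.1 hne
    exact two_le _ i (by rw [Fin.append_left, Fin.append_left]; exact hi)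
      (by rw [Fin.append_right, Fin.append_right]; exact hi)
  · intro X hX Y hY Z hZ hxy hyz hxz
    obtain ⟨x, hx, rfl⟩ := Finset.mem_image.1 hX
    obtain ⟨y, hy, rfl⟩ := Finset.mem_image.1 hY
    obtain ⟨z, hz, rfl⟩ := Finset.mem_image.1 hZ
    have h1 : x ≠ y := fun h => hxy (by rw [h])
    have h2 : y ≠ z := fun h => hyz (by rw [h])
    have h3 : x ≠ z := fun h => hxz (by rw [h])
    obtain ⟨i, hi⟩ := (hB n x y z).1 (hS x hx y hy z hz h1 h2 h3)
    exact two_le _ i (by rw [Fin.append_left, Fin.append_left, Fin.append_left]; exact hi)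
      (by rw [Fin.append_right, Fin.append_right, Fin.append_right]; exact hi)

end Pool.Agent.H4.MQ
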